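import Pool.Agent.H81.Balls.Defs

/-!
# Balls of bounded radius: definitions

`ballsLE G r` is the hypergraph of the balls of radius at most `r` of `G`.  `Rch` and `wreach`
are the usual weakly reachable sets of a linear order given by an injective rank function.
`KMinorFree t G` says that `G` has no `K_t` minor.
-/

set_option autoImplicit false

namespace Pool.Agent.H89.Rad

open Pool.Agent.H81.Balls

variable {V : Type*}

/-- The hyperedges of the hypergraph of balls of radius at most `r` in `G`. -/
def ballsLE (G : SimpleGraph V) (r : ℕ) : Set (Set V) :=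
  {e | ∃ (c : V) (s : ℤ), s ≤ r ∧ e = ball G c s}

/-- There is a walk from `z` to `v` of length at most `n`, all of whose vertices have rank at
least the rank of `z`. -/
def Rch (G : SimpleGraph V) (rk : V → ℕ) (z : V) (n : ℕ) (v : V) : Prop :=
  ∃ p : G.Walk z v, p.length ≤ n ∧ ∀ w ∈ p.support, rk z ≤ rk w

/-- The vertices weakly `n`-reachable from `v`. -/
def wreach (G : SimpleGraph V) (rk : V → ℕ) (n : ℕ) (v : V) : Set V :=
  {z | Rch G rk z n v}

/-- `G` has no `K_t` minor: there are no `t` pairwise disjoint connected vertex sets with an edge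
between any two of them. -/
def KMinorFree (t : ℕ) (G : SimpleGraph V) : Prop :=
  ¬ ∃ B : Fin t → Set V, (∀ i, (G.induce (B i)).Connected) ∧
    (∀ i j, i ≠ j → Disjoint (B i) (B j)) ∧
    (∀ i j, i ≠ j → ∃ a ∈ B i, ∃ b ∈ B j, G.Adj a b)

/-- The size of the scheme: `K + 1` sample points and
`1 + (2 K + 4) ⌈log₂ (r + 2)⌉ + (K + 2) ⌈log₂ (K + 1)⌉` bits. -/
def sz (r K : ℕ) : ℕ :=
  (K + 1) + (1 + (2 * K + 4) * Nat.clog 2 (r + 2) + (K + 2) * Nat.clog 2 (K + 1))

/-- The bound on the weakly `2r`-reachable sets of graphs without `K_(s+2)` minor. -/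
def wc (s r : ℕ) : ℕ := (2 * r + s).choose s * (s * (4 * r + 1))

end Pool.Agent.H89.Rad
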