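import Pool.Agent.H89.RadDefs
import Pool.Agent.H81.Balls.Scheme

set_option autoImplicit false

open Classical

namespace Pool.Agent.H89.Rad

open Pool.Agent.H81.Balls

variable {V : Type*} {G : SimpleGraph V} {rk : V → ℕ}

lemma Rch.symm_walk {z v : V} {n : ℕ} (h : Rch G rk z n v) :
    ∃ p : G.Walk v z, p.length ≤ n ∧ ∀ w ∈ p.support, rk z ≤ rk w := by
  obtain ⟨p, hp, hs⟩ := h
  exact ⟨p.reverse, by simpa using hp, fun w hw => hs w (by simpa using hw)⟩

lemma Rch.mono {z v : V} {n m : ℕ} (h : Rch G rk z n v) (hnm : n ≤ m) : Rch G rk z m v := by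
  obtain ⟨p, hp, hs⟩ := h
  exact ⟨p, hp.trans hnm, hs⟩

lemma Rch.refl (z : V) (n : ℕ) : Rch G rk z n z :=
  ⟨SimpleGraph.Walk.nil, by simp, by simp⟩

/-- Two weakly reachable vertices of the same vertex. -/
lemma Rch.trans' {z z' c : V} {n m : ℕ} (h : Rch G rk z n c) (h' : Rch G rk z' m c)
    (hzz : rk z' ≤ rk z) : Rch G rk z' (m + n) z := by
  obtain ⟨p, hp, hs⟩ := h.symm_walk
  obtain ⟨q, hq, hs'⟩ := h'
  refine ⟨q.append p, by simp; omega, ?_⟩
  intro w hw
  rw [SimpleGraph.Walk.mem_support_append_iff] at hw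
  rcases hw with hw | hw
  · exact hs' w hw
  · exact hzz.trans (hs w hw)

/-- The profile of `c`. -/
noncomputable def prof (G : SimpleGraph V) (rk : V → ℕ) (r : ℕ) (c z : V) : ℕ :=
  if h : ∃ n, n ≤ r ∧ Rch G rk z n c then Nat.find h else r + 1

lemma prof_le_of_rch {r : ℕ} {c z : V} {n : ℕ} (hn : n ≤ r) (h : Rch G rk z n c) :
    prof G rk r c z ≤ n := by
  have hex : ∃ n, n ≤ r ∧ Rch G rk z n c := ⟨n, hn, h⟩
  unfold prof
  rw [dif_pos hex]
  exact Nat.find_min' hex ⟨hn, h⟩

lemma rch_of_prof_le {r : ℕ} {c z : V} (h : prof G rk r c z ≤ r) :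
    Rch G rk z (prof G rk r c z) c := by
  unfold prof at h ⊢
  split_ifs at h ⊢ with hex
  · exact (Nat.find_spec hex).2
  · omega

lemma prof_le (r : ℕ) (c z : V) : prof G rk r c z ≤ r + 1 := by
  unfold prof
  split_ifs with hex
  · exact (Nat.find_spec hex).1.trans (Nat.le_succ _)
  · exact le_rfl

lemma prof_self (r : ℕ) (c : V) : prof G rk r c c = 0 :=
  Nat.le_zero.mp (prof_le_of_rch (Nat.zero_le r) (Rch.refl c 0))

lemma eq_of_prof_zero {r : ℕ} {c z : V} (h : prof G rk r c z = 0) : c = z := by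
  have h1 := rch_of_prof_le (G := G) (rk := rk) (r := r) (c := c) (z := z) (by omega)
  rw [h] at h1
  obtain ⟨p, hp, _⟩ := h1
  have := SimpleGraph.Walk.eq_of_length_eq_zero (Nat.le_zero.mp hp)
  exact this.symm

/-- Membership in a ball in terms of profiles. -/
lemma mem_ball_iff {r s : ℕ} (hs : s ≤ r) (c x : V) :
    x ∈ ball G c (s : ℤ) ↔ ∃ z, prof G rk r c z + prof G rk r x z ≤ s := by
  constructor
  · rintro ⟨hreach, hd⟩
    have hd' : G.dist c x ≤ s := by exact_mod_cast hd
    obtain ⟨p, hp⟩ := hreach.exists_walk_length_eq_dist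
    have hne : p.support.toFinset.Nonempty := ⟨c, by simp⟩
    obtain ⟨z, hz, hzmin⟩ := Finset.exists_min_image p.support.toFinset rk hne
    rw [List.mem_toFinset] at hz
    have hlen : (p.takeUntil z hz).length + (p.dropUntil z hz).length = p.length := by
      conv_rhs => rw [← p.take_spec hz]
      rw [SimpleGraph.Walk.length_append]
    have h1 : Rch G rk z (p.takeUntil z hz).length c := by
      refine ⟨(p.takeUntil z hz).reverse, by simp, ?_⟩
      intro w hw
      apply hzmin
      rw [List.mem_toFinset]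
      exact p.support_takeUntil_subset hz (by simpa using hw)
    have h2 : Rch G rk z (p.dropUntil z hz).length x := by
      refine ⟨p.dropUntil z hz, le_rfl, ?_⟩
      intro w hw
      apply hzmin
      rw [List.mem_toFinset]
      exact p.support_dropUntil_subset hz hw
    refine ⟨z, ?_⟩
    have h3 := prof_le_of_rch (r := r) (by omega) h1
    have h4 := prof_le_of_rch (r := r) (by omega) h2
    omega
  · rintro ⟨z, hz⟩
    obtain ⟨p, hp, _⟩ := (rch_of_prof_le (G := G) (rk := rk) (r := r) (c := c) (z := z)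
      (by omega)).symm_walk
    obtain ⟨q, hq, _⟩ := rch_of_prof_le (G := G) (rk := rk) (r := r) (c := x) (z := z) (by omega)
    refine ⟨⟨p.append q⟩, ?_⟩
    have := SimpleGraph.dist_le (p.append q)
    rw [SimpleGraph.Walk.length_append] at this
    exact_mod_cast (by omega : G.dist c x ≤ s)

/-- The lexicographic order of the profiles. -/
def lt (G : SimpleGraph V) (rk : V → ℕ) (r : ℕ) (c c' : V) : Prop :=
  ∃ z, prof G rk r c z < prof G rk r c' z ∧
    ∀ z', rk z' < rk z → prof G rk r c z' = prof G rk r c' z'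

lemma lt_irrefl (r : ℕ) (c : V) : ¬ lt G rk r c c := by
  rintro ⟨z, hz, _⟩
  exact absurd hz (Nat.lt_irrefl _)

lemma lt_trans (hrk : Function.Injective rk) (r : ℕ) (a b c : V) (h1 : lt G rk r a b)
    (h2 : lt G rk r b c) : lt G rk r a c := by
  obtain ⟨z, hz, hz'⟩ := h1
  obtain ⟨w, hw, hw'⟩ := h2
  rcases lt_trichotomy (rk z) (rk w) with h | h | h
  · refine ⟨z, by rw [← hw' z h]; exact hz, fun z' hz'' => ?_⟩
    rw [hz' z' hz'', hw' z' (hz''.trans h)]
  · have := hrk h
    subst this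
    refine ⟨z, hz.trans hw, fun z' hz'' => ?_⟩
    rw [hz' z' hz'', hw' z' hz'']
  · refine ⟨w, by rw [hz' w h]; exact hw, fun z' hz'' => ?_⟩
    rw [hz' z' (hz''.trans h), hw' z' hz'']

lemma lt_total (hrk : Function.Injective rk) (r : ℕ) (a b : V) (hab : a ≠ b) :
    lt G rk r a b ∨ lt G rk r b a := by
  have hex : ∃ n, ∃ z, rk z = n ∧ prof G rk r a z ≠ prof G rk r b z := by
    refine ⟨rk a, a, rfl, ?_⟩
    rw [prof_self]
    intro h
    exact hab (eq_of_prof_zero h.symm).symm
  obtain ⟨z, hz, hne⟩ := Nat.find_spec hex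
  have hmin : ∀ z', rk z' < rk z → prof G rk r a z' = prof G rk r b z' := by
    intro z' hz'
    by_contra hcon
    exact Nat.find_min hex (by rw [← hz]; exact hz') ⟨z', rfl, hcon⟩
  rcases Nat.lt_or_gt_of_ne hne with h | h
  · exact Or.inl ⟨z, h, hmin⟩
  · exact Or.inr ⟨z, h, fun z' hz' => (hmin z' hz').symm⟩

/-- Blocks are convex. -/
lemma block_convex (hrk : Function.Injective rk) (r : ℕ) {z a b c : V}
    (hab : lt G rk r a b) (hbc : lt G rk r b c)
    (hac : ∀ z', rk z' ≤ rk z → prof G rk r a z' = prof G rk r c z') :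
    ∀ z', rk z' ≤ rk z → prof G rk r b z' = prof G rk r a z' := by
  obtain ⟨x, hx, hx'⟩ := hab
  obtain ⟨y, hy, hy'⟩ := hbc
  rcases Nat.lt_or_ge (rk z) (rk x) with h | h
  · intro z' hz'
    exact (hx' z' (by omega)).symm
  · exfalso
    have h1 := hac x h
    rcases lt_trichotomy (rk x) (rk y) with h2 | h2 | h2
    · have := hy' x h2
      omega
    · have := hrk h2
      subst this
      omega
    · have h3 := hac y (by omega)
      have := hx' y h2
      omega

end Pool.Agent.H89.Rad
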