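import Pool.Agent.H89.RadA

set_option autoImplicit false

open Classical

namespace Pool.Agent.H89.Rad

open Pool.Agent.H81.Balls

variable {V : Type*} [Fintype V] {G : SimpleGraph V} {rk : V → ℕ}

/-- Enumeration of the weakly `2r`-reachable vertices. -/
noncomputable def en (G : SimpleGraph V) (rk : V → ℕ) (r K : ℕ) (v : V) (i : Fin (K + 1)) : V :=
  (wreach G rk (2 * r) v).toFinset.toList.getD i v

lemma exists_en {r K : ℕ} (hK : ∀ v, (wreach G rk (2 * r) v).ncard ≤ K) {v z : V}
    (h : z ∈ wreach G rk (2 * r) v) : ∃ i, en G rk r K v i = z := by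
  obtain ⟨i, hi, hi'⟩ := mem_toList_getD (s := (wreach G rk (2 * r) v).toFinset) (x := z)
    (by simpa using h) v
  have h1 := hK v
  rw [Set.ncard_eq_toFinset_card'] at h1
  exact ⟨⟨i, by omega⟩, hi'⟩

/-- Advice strings. -/
abbrev Adv (r K : ℕ) : Type :=
  Fin (r + 2) × (Fin (K + 1) → Fin (K + 1) × Fin (r + 2)) × Bool × Fin (K + 1) × Fin (r + 2) ×
    (Fin (K + 1) → Fin (r + 2))

/-- The candidates. -/
def CU (G : SimpleGraph V) (rk : V → ℕ) (r K : ℕ) (d : V)
    (f : Fin (K + 1) → Fin (K + 1) × Fin (r + 2)) (Y : Finset V) : Set V :=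
  {c | ∀ i : Fin (K + 1), (i : ℕ) < Y.card →
    prof G rk r c (en G rk r K (Y.toList.getD i d) (f i).1) ≤ ((f i).2 : ℕ)}

/-- The block. -/
def block (G : SimpleGraph V) (rk : V → ℕ) (r K : ℕ) (C : Set V) (z : V) (a : ℕ)
    (g : Fin (K + 1) → Fin (r + 2)) : Set V :=
  {c | c ∈ C ∧ prof G rk r c z = a ∧
    ∀ i, rk (en G rk r K z i) < rk z → prof G rk r c (en G rk r K z i) = (g i : ℕ)}

/-- First element of `C`. -/
def IsMin (G : SimpleGraph V) (rk : V → ℕ) (r : ℕ) (C : Set V) (c : V) : Prop :=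
  c ∈ C ∧ ∀ w ∈ C, ¬ lt G rk r w c

/-- Last element of `C`. -/
def IsMax (G : SimpleGraph V) (rk : V → ℕ) (r : ℕ) (C : Set V) (c : V) : Prop :=
  c ∈ C ∧ ∀ w ∈ C, ¬ lt G rk r c w

omit [Fintype V] in
lemma isMin_unique (hrk : Function.Injective rk) {r : ℕ} {C : Set V} {c c' : V}
    (h : IsMin G rk r C c) (h' : IsMin G rk r C c') : c = c' := by
  by_contra hne
  rcases lt_total hrk r c c' hne with h1 | h1
  · exact h'.2 _ h.1 h1
  · exact h.2 _ h'.1 h1

omit [Fintype V] in
lemma isMax_unique (hrk : Function.Injective rk) {r : ℕ} {C : Set V} {c c' : V}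
    (h : IsMax G rk r C c) (h' : IsMax G rk r C c') : c = c' := by
  by_contra hne
  rcases lt_total hrk r c c' hne with h1 | h1
  · exact h.2 _ h'.1 h1
  · exact h'.2 _ h.1 h1

/-- The centre found by the decoder. -/
noncomputable def cen [Nonempty V] (G : SimpleGraph V) (rk : V → ℕ) (r K : ℕ) (a : Adv r K)
    (Y : Finset V × Finset V) : V :=
  let d : V := Classical.arbitrary V
  let C := CU G rk r K d a.2.1 Y.1
  if a.2.2.1 = false then Classical.epsilon (IsMin G rk r C)
  else
    let u := Classical.epsilon (fun v => v ∈ Y.2)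
    let z := en G rk r K u a.2.2.2.1
    let c0 := Classical.epsilon
      (IsMax G rk r (block G rk r K C z a.2.2.2.2.1 a.2.2.2.2.2))
    Classical.epsilon (IsMin G rk r {c | c ∈ C ∧ lt G rk r c0 c})

/-- The set found by the decoder. -/
noncomputable def decR [Nonempty V] (G : SimpleGraph V) (rk : V → ℕ) (r K : ℕ) (a : Adv r K)
    (Y : Finset V × Finset V) : Set V :=
  if (a.1 : ℕ) = r + 1 then ball G (Classical.arbitrary V) (-1)
  else ball G (cen G rk r K a Y) ((a.1 : ℕ) : ℤ)

lemma decR_mem [Nonempty V] (r K : ℕ) (a : Adv r K) (Y : Finset V × Finset V) :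
    decR G rk r K a Y ∈ ballsLE G r := by
  unfold decR
  split_ifs with h
  · exact ⟨_, _, by omega, rfl⟩
  · refine ⟨_, _, ?_, rfl⟩
    have := a.1.2
    omega

lemma card_adv (r K : ℕ) : Fintype.card (Adv r K) ≤
    2 ^ (1 + (2 * K + 4) * Nat.clog 2 (r + 2) + (K + 2) * Nat.clog 2 (K + 1)) := by
  have h1 : r + 2 ≤ 2 ^ Nat.clog 2 (r + 2) := Nat.le_pow_clog (by norm_num) _
  have h2 : K + 1 ≤ 2 ^ Nat.clog 2 (K + 1) := Nat.le_pow_clog (by norm_num) _
  have h3 : Fintype.card (Adv r K) = (r + 2) * (((K + 1) * (r + 2)) ^ (K + 1) * (2 * ((K + 1) *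
      ((r + 2) * (r + 2) ^ (K + 1))))) := by
    simp [Adv, Fintype.card_prod]
  rw [h3]
  set a := Nat.clog 2 (r + 2)
  set b := Nat.clog 2 (K + 1)
  calc (r + 2) * (((K + 1) * (r + 2)) ^ (K + 1) * (2 * ((K + 1) * ((r + 2) * (r + 2) ^ (K + 1)))))
      ≤ 2 ^ a * (((2 ^ b) * (2 ^ a)) ^ (K + 1) * (2 * ((2 ^ b) * (2 ^ a * (2 ^ a) ^ (K + 1))))) := by
        gcongr
    _ = 2 ^ (1 + (2 * K + 4) * a + (K + 2) * b) := by
        rw [mul_pow]
        simp only [← pow_mul, ← pow_add, ← pow_succ']
        congr 1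
        ring

/-- Proper compression from a good order. -/
theorem scheme_of_order (r K : ℕ) (hrk : Function.Injective rk)
    (hK : ∀ v, (wreach G rk (2 * r) v).ncard ≤ K) :
    HasProperScheme (ballsLE G r) (sz r K) := by
  unfold sz
  by_cases hV : Nonempty V
  swap
  · have hemp : IsEmpty {X // IsSample (ballsLE G r) X} := by
      constructor
      rintro ⟨X, e, ⟨c, _⟩, _⟩
      exact hV ⟨c⟩
    exact ⟨fun X => (hemp.false X).elim, fun Y => (hemp.false Y.1).elim, K + 1, _, le_rfl,
      fun X => (hemp.false X).elim, fun X => (hemp.false X).elim, fun X => (hemp.false X).elim,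
      fun X => (hemp.false X).elim, fun Y => (hemp.false Y.1).elim⟩
  apply scheme_of_decoders (ballsLE G r) (K + 1) _ (Adv r K)
    (card_adv r K) (decR G rk r K) (fun a Y => decR_mem r K a Y)
  rintro ⟨Xp, Xm⟩ ⟨e, ⟨c, s, hs, rfl⟩, hXp, hXm⟩
  simp only at hXp hXm ⊢
  by_cases hneg : s < 0
  · -- empty ball
    have hXe : Xp = ∅ := by
      rw [Finset.eq_empty_iff_forall_notMem]
      intro x hx
      have := (hXp hx).2
      omega
    subst hXe
    refine ⟨(∅, ∅), (Fin.last _, (fun _ => (0, 0)), false, 0, 0, fun _ => 0), by simp, by simp,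
      by simp, ?_⟩
    have e1 : decR G rk r K (Fin.last _, (fun _ => (0, 0)), false, 0, 0, fun _ => 0)
        ((∅, ∅) : Finset V × Finset V) = ball G (Classical.arbitrary V) (-1) := by
      simp [decR]
    rw [e1]
    refine ⟨by simp, ?_⟩
    rw [Set.disjoint_left]
    rintro v _ ⟨_, hv⟩
    omega
  obtain ⟨n, rfl⟩ : ∃ n : ℕ, s = n := ⟨s.toNat, by omega⟩
  have hn : n ≤ r := by exact_mod_cast hs
  set d : V := Classical.arbitrary V with hd
  -- anchors of the positive samples
  have hpos : ∀ x : V, ∃ z, x ∈ Xp → prof G rk r c z + prof G rk r x z ≤ n := by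
    intro x
    by_cases hx : x ∈ Xp
    · obtain ⟨z, hz⟩ := (mem_ball_iff (rk := rk) hn c x).mp (hXp hx)
      exact ⟨z, fun _ => hz⟩
    · exact ⟨x, fun h => absurd h hx⟩
  choose zz hzz using hpos
  set U : Finset V := Xp.image zz with hU
  have hUx : ∀ z : V, ∃ x, z ∈ U → x ∈ Xp ∧ zz x = z := by
    intro z
    by_cases hz : z ∈ U
    · obtain ⟨x, hx, hx'⟩ := Finset.mem_image.mp hz
      exact ⟨x, fun _ => ⟨hx, hx'⟩⟩
    · exact ⟨z, fun h => absurd h hz⟩
  choose xx hxx using hUx
  set Yp : Finset V := U.image xx with hYp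
  have hYpsub : Yp ⊆ Xp := by
    intro x hx
    obtain ⟨z, hz, rfl⟩ := Finset.mem_image.mp hx
    exact (hxx z hz).1
  have hUsub : (U : Set V) ⊆ wreach G rk (2 * r) c := by
    intro z hz
    obtain ⟨x, hx, rfl⟩ := Finset.mem_image.mp hz
    have h1 := hzz x hx
    exact (rch_of_prof_le (r := r) (by omega)).mono (by omega)
  have hUcard : U.card ≤ K := by
    have h1 := Set.ncard_le_ncard hUsub (Set.toFinite _)
    rw [Set.ncard_coe_finset] at h1
    exact h1.trans (hK c)
  have hYcard : Yp.card ≤ K := Finset.card_image_le.trans hUcard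
  -- the advice for the anchors
  have hf : ∀ i : Fin (K + 1), ∃ q : Fin (K + 1) × Fin (r + 2), (i : ℕ) < Yp.card →
      en G rk r K (Yp.toList.getD i d) q.1 = zz (Yp.toList.getD i d) ∧
      (q.2 : ℕ) = prof G rk r c (zz (Yp.toList.getD i d)) := by
    intro i
    by_cases hi : (i : ℕ) < Yp.card
    · have hmem : Yp.toList.getD i d ∈ Yp := by
        rw [← Finset.mem_toList, List.getD_eq_getElem _ _ (by rwa [Finset.length_toList])]
        exact List.getElem_mem _
      have h1 := hzz _ (hYpsub hmem)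
      have h2 : zz (Yp.toList.getD i d) ∈ wreach G rk (2 * r) (Yp.toList.getD i d) :=
        (rch_of_prof_le (r := r) (by omega)).mono (by omega)
      obtain ⟨j, hj⟩ := exists_en hK h2
      exact ⟨(j, ⟨prof G rk r c (zz (Yp.toList.getD i d)), by omega⟩), fun _ => ⟨hj, rfl⟩⟩
    · exact ⟨(0, 0), fun h => absurd h hi⟩
  choose f hf using hf
  set C : Set V := CU G rk r K d f Yp with hC
  have hcC : c ∈ C := by
    intro i hi
    have := hf i hi
    rw [this.1, this.2]
  -- all candidates satisfy the positive samples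
  have hCpos : ∀ c' ∈ C, ∀ x ∈ Xp, x ∈ ball G c' (n : ℤ) := by
    intro c' hc' x hx
    rw [mem_ball_iff (rk := rk) hn]
    refine ⟨zz x, ?_⟩
    have hzU : zz x ∈ U := Finset.mem_image_of_mem _ hx
    have hyY : xx (zz x) ∈ Yp := Finset.mem_image_of_mem _ hzU
    obtain ⟨i, hi, hi'⟩ := mem_toList_getD hyY d
    have h1 := hc' ⟨i, by omega⟩ hi
    have h2 := hf ⟨i, by omega⟩ hi
    simp only at h1 h2
    rw [h2.1, h2.2, hi', (hxx (zz x) hzU).2] at h1
    have := hzz x hx
    omega
  -- dead and alive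
  have halive : ∀ c' ∈ C, (∀ u ∈ Xm, u ∉ ball G c' (n : ℤ)) →
      Realizes (ball G c' (n : ℤ)) (Xp, Xm) := by
    intro c' hc' h
    refine ⟨fun x hx => hCpos c' hc' x hx, ?_⟩
    rw [Set.disjoint_left]
    exact fun u hu => h u hu
  have hcalive : ∀ u ∈ Xm, u ∉ ball G c (n : ℤ) := by
    rw [Set.disjoint_left] at hXm
    exact fun u hu => hXm hu
  have htr := lt_trans (G := G) hrk r
  have hir := lt_irrefl (G := G) (rk := rk) r
  obtain ⟨c1, ⟨hc1C, hc1a⟩, hc1min⟩ := exists_min (r := lt G rk r) hir htr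
    {c' | c' ∈ C ∧ ∀ u ∈ Xm, u ∉ ball G c' (n : ℤ)} ⟨c, hcC, hcalive⟩
  have hn2 : n < r + 2 := by omega
  have hYm : ((Yp : Set V)).ncard ≤ K := by rw [Set.ncard_coe_finset]; exact hYcard
  by_cases hfirst : ∀ w ∈ C, ¬ lt G rk r w c1
  · -- the first candidate is alive
    refine ⟨(Yp, ∅), (⟨n, hn2⟩, f, false, 0, 0, fun _ => 0), hYpsub, by simp, ?_, ?_⟩
    · simp only [Finset.coe_empty, Set.union_empty]
      omega
    · have e1 : decR G rk r K (⟨n, hn2⟩, f, false, 0, 0, fun _ => 0) ((Yp, ∅) : Finset V × Finset V)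
          = ball G c1 (n : ℤ) := by
        have e2 : cen G rk r K (⟨n, hn2⟩, f, false, 0, 0, fun _ => 0)
            ((Yp, ∅) : Finset V × Finset V) = c1 := by
          simp only [cen, if_true]
          have h1 : IsMin G rk r C c1 := ⟨hc1C, hfirst⟩
          exact isMin_unique hrk (Classical.epsilon_spec ⟨c1, h1⟩) h1
        have hne : n ≠ r + 1 := by omega
        simp only [decR, hne, if_false, e2]
      rw [e1]
      exact halive c1 hc1C hc1a
  · push Not at hfirst
    obtain ⟨c0, ⟨hc0C, hc0lt⟩, hc0max⟩ := exists_max (r := lt G rk r) hir htr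
      {w | w ∈ C ∧ lt G rk r w c1} hfirst
    have hc0dead : ∃ u ∈ Xm, u ∈ ball G c0 (n : ℤ) := by
      by_contra hcon
      push Not at hcon
      exact hc1min c0 ⟨hc0C, hcon⟩ hc0lt
    obtain ⟨u, hu, huball⟩ := hc0dead
    obtain ⟨z, hz⟩ := (mem_ball_iff (rk := rk) hn c0 u).mp huball
    have hzc0 : prof G rk r c0 z ≤ r := by omega
    have hzu : z ∈ wreach G rk (2 * r) u := (rch_of_prof_le (r := r) (by omega)).mono (by omega)
    obtain ⟨j, hj⟩ := exists_en hK hzu
    have hval : prof G rk r c0 z < r + 2 := by omega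
    have hg : ∀ i : Fin (K + 1), prof G rk r c0 (en G rk r K z i) < r + 2 := fun i =>
      Nat.lt_succ_of_le (prof_le r _ _)
    set B : Set V := block G rk r K C z (prof G rk r c0 z) (fun i => ⟨_, hg i⟩) with hB
    have hc0B : c0 ∈ B := ⟨hc0C, rfl, fun i _ => rfl⟩
    -- elements of the block have the same profile as `c0` up to `z`
    have hBprof : ∀ b ∈ B, ∀ z', rk z' ≤ rk z → prof G rk r b z' = prof G rk r c0 z' := by
      intro b hb z' hz'
      rcases Nat.lt_or_ge (rk z') (rk z) with h | h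
      · by_cases hen : ∃ i, en G rk r K z i = z'
        · obtain ⟨i, rfl⟩ := hen
          exact hb.2.2 i h
        · have key : ∀ w : V, prof G rk r w z = prof G rk r c0 z → ¬ prof G rk r w z' ≤ r := by
            intro w hw hw'
            apply hen
            apply exists_en hK
            have h1 := rch_of_prof_le (G := G) (rk := rk) (c := w) (z := z) (r := r) (by omega)
            have h2 := rch_of_prof_le (G := G) (rk := rk) (c := w) (z := z') (r := r) hw'
            exact (h1.trans' h2 hz').mono (by omega)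
          have h1 := key b hb.2.1
          have h2 := key c0 rfl
          have h3 := prof_le (G := G) (rk := rk) r b z'
          have h4 := prof_le (G := G) (rk := rk) r c0 z'
          omega
      · have : z' = z := hrk (by omega)
        subst this
        exact hb.2.1
    have hBconv : ∀ b ∈ B, ¬ lt G rk r c0 b := by
      intro b hb hlt
      -- `b` is a candidate above `c0`; then `c1 ≤ b`, and `c1` would be in the block
      have hbc1 : ¬ lt G rk r b c1 := fun h => hc0max b ⟨hb.1, h⟩ hlt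
      have hprof : ∀ z', rk z' ≤ rk z → prof G rk r c1 z' = prof G rk r c0 z' := by
        by_cases hbe : b = c1
        · subst hbe
          exact hBprof b hb
        · rcases lt_total hrk r b c1 hbe with h | h
          · exact absurd h hbc1
          · exact block_convex hrk r hc0lt h (fun z' hz' => (hBprof b hb z' hz').symm)
      apply hc1a u hu
      rw [mem_ball_iff (rk := rk) hn]
      refine ⟨z, ?_⟩
      rw [hprof z le_rfl]
      exact hz
    have hc0m : IsMax G rk r B c0 := ⟨hc0B, hBconv⟩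
    have hc1m : IsMin G rk r {c' | c' ∈ C ∧ lt G rk r c0 c'} c1 := by
      refine ⟨⟨hc1C, hc0lt⟩, ?_⟩
      rintro w ⟨hwC, hwlt⟩ hwc1
      exact hc0max w ⟨hwC, hwc1⟩ hwlt
    set a : Adv r K := (⟨n, hn2⟩, f, true, j, ⟨prof G rk r c0 z, hval⟩, fun i => ⟨_, hg i⟩)
      with ha
    refine ⟨(Yp, {u}), a, hYpsub, by simpa using hu, ?_, ?_⟩
    · refine (Set.ncard_union_le _ _).trans ?_
      simp only [Finset.coe_singleton, Set.ncard_singleton]
      omega
    · have e1 : decR G rk r K a ((Yp, {u}) : Finset V × Finset V) = ball G c1 (n : ℤ) := by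
        have e2 : cen G rk r K a ((Yp, {u}) : Finset V × Finset V) = c1 := by
          have e3 : Classical.epsilon (fun v => v ∈ ({u} : Finset V)) = u := by
            have hex : ∃ v, v ∈ ({u} : Finset V) := ⟨u, by simp⟩
            exact Finset.mem_singleton.mp (Classical.epsilon_spec hex)
          simp only [cen, ha, e3, hj]
          have e4 : Classical.epsilon (IsMax G rk r B) = c0 :=
            isMax_unique hrk (Classical.epsilon_spec ⟨c0, hc0m⟩) hc0m
          have e5 : Classical.epsilon (IsMin G rk r {c' | c' ∈ C ∧ lt G rk r c0 c'}) = c1 :=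
            isMin_unique hrk (Classical.epsilon_spec ⟨c1, hc1m⟩) hc1m
          rw [if_neg (by simp)]
          rw [← hC, ← hB, e4, e5]
        have hne : n ≠ r + 1 := by omega
        have ha1 : (a.1 : ℕ) = n := rfl
        unfold decR
        rw [ha1, if_neg hne, e2]
      rw [e1]
      exact halive c1 hc1C hc1a

end Pool.Agent.H89.Rad
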