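import Pool.Agent.H89.RadDefs

/-!
# Levels of `K_t`-minor-free graphs (isometric path decompositions)
-/

set_option autoImplicit false

open Classical

namespace Pool.Agent.H89.Rad

variable {V : Type*} {G : SimpleGraph V}

/-- Reachability inside `S` within `n` steps. -/
def RchS (G : SimpleGraph V) (S : Set V) (n : ℕ) (a b : V) : Prop :=
  ∃ p : G.Walk a b, p.length ≤ n ∧ ∀ w ∈ p.support, w ∈ S

/-- Connected sets. -/
def ConnS (G : SimpleGraph V) (S : Set V) : Prop :=
  S.Nonempty ∧ ∀ a ∈ S, ∀ b ∈ S, ∃ n, RchS G S n a b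

/-- Adjacent sets. -/
def AdjS (G : SimpleGraph V) (A B : Set V) : Prop := ∃ a ∈ A, ∃ b ∈ B, G.Adj a b

/-- The component of `v` in `S`. -/
def comp (G : SimpleGraph V) (S : Set V) (v : V) : Set V := {w | ∃ n, RchS G S n v w}

lemma RchS.mono {S T : Set V} {n m : ℕ} {a b : V} (h : RchS G S n a b) (hST : S ⊆ T)
    (hnm : n ≤ m) : RchS G T m a b := by
  obtain ⟨p, hp, hs⟩ := h
  exact ⟨p, hp.trans hnm, fun w hw => hST (hs w hw)⟩

lemma RchS.symm {S : Set V} {n : ℕ} {a b : V} (h : RchS G S n a b) : RchS G S n b a := by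
  obtain ⟨p, hp, hs⟩ := h
  exact ⟨p.reverse, by simpa using hp, fun w hw => hs w (by simpa using hw)⟩

lemma RchS.trans {S : Set V} {n m : ℕ} {a b c : V} (h : RchS G S n a b) (h' : RchS G S m b c) :
    RchS G S (n + m) a c := by
  obtain ⟨p, hp, hs⟩ := h
  obtain ⟨q, hq, hs'⟩ := h'
  refine ⟨p.append q, by simp; omega, ?_⟩
  intro w hw
  rw [SimpleGraph.Walk.mem_support_append_iff] at hw
  rcases hw with hw | hw
  · exact hs w hw
  · exact hs' w hw

lemma RchS.refl {S : Set V} (n : ℕ) {a : V} (h : a ∈ S) : RchS G S n a a :=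
  ⟨SimpleGraph.Walk.nil, by simp, by simpa using h⟩

lemma RchS.adj {S : Set V} {a b : V} (ha : a ∈ S) (hb : b ∈ S) (h : G.Adj a b) :
    RchS G S 1 a b := by
  refine ⟨h.toWalk, by simp, ?_⟩
  intro w hw
  simp at hw
  rcases hw with rfl | rfl
  · exact ha
  · exact hb

lemma RchS.left {S : Set V} {n : ℕ} {a b : V} (h : RchS G S n a b) : a ∈ S := by
  obtain ⟨p, _, hs⟩ := h
  exact hs a (by simp)

lemma RchS.right {S : Set V} {n : ℕ} {a b : V} (h : RchS G S n a b) : b ∈ S := by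
  obtain ⟨p, _, hs⟩ := h
  exact hs b (by simp)

lemma comp_subset (S : Set V) (v : V) : comp G S v ⊆ S := by
  rintro w ⟨n, h⟩
  exact h.right

lemma comp_mono {S T : Set V} (h : S ⊆ T) (v : V) : comp G S v ⊆ comp G T v := by
  rintro w ⟨n, hw⟩
  exact ⟨n, hw.mono h le_rfl⟩

lemma mem_comp_self {S : Set V} {v : V} (h : v ∈ S) : v ∈ comp G S v := ⟨0, RchS.refl 0 h⟩

lemma comp_eq {S : Set V} {v w : V} (h : w ∈ comp G S v) : comp G S w = comp G S v := by
  obtain ⟨n, hn⟩ := h
  ext x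
  constructor
  · rintro ⟨m, hm⟩
    exact ⟨_, hn.trans hm⟩
  · rintro ⟨m, hm⟩
    exact ⟨_, hn.symm.trans hm⟩

lemma mem_comp_of_adj {S : Set V} {v w z : V} (h : w ∈ comp G S v) (hz : z ∈ S)
    (ha : G.Adj w z) : z ∈ comp G S v := by
  obtain ⟨n, hn⟩ := h
  exact ⟨_, hn.trans (RchS.adj hn.right hz ha)⟩

/-- A walk inside `S` stays inside the component. -/
lemma RchS.in_comp {S : Set V} {n : ℕ} {a b v : V} (h : RchS G S n a b) (ha : a ∈ comp G S v) :
    RchS G (comp G S v) n a b := by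
  obtain ⟨p, hp, hs⟩ := h
  refine ⟨p, hp, ?_⟩
  intro w hw
  rw [← comp_eq ha]
  refine ⟨(p.takeUntil w hw).length, p.takeUntil w hw, le_rfl, ?_⟩
  intro x hx
  exact hs x (p.support_takeUntil_subset_support hw hx)

lemma comp_conn {S : Set V} {v : V} (h : v ∈ S) : ConnS G (comp G S v) := by
  refine ⟨⟨v, mem_comp_self h⟩, ?_⟩
  intro a ha b hb
  obtain ⟨n, hn⟩ := ha
  obtain ⟨m, hm⟩ := hb
  exact ⟨_, (hn.symm.trans hm).in_comp ⟨n, hn⟩⟩

/-- A geodesic inside `C`: its vertex set meets every ball of radius `ρ` of `C` in at most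
`2 ρ + 1` vertices. -/
lemma geodesic [Finite V] {C : Set V} (hC : ConnS G C) {a b : V} (ha : a ∈ C) (hb : b ∈ C) :
    ∃ P : Set V, P ⊆ C ∧ a ∈ P ∧ b ∈ P ∧ (∀ z ∈ P, ∃ n, RchS G P n a z) ∧
      ∀ (ρ : ℕ) (v : V), {z | z ∈ P ∧ RchS G C ρ v z}.ncard ≤ 2 * ρ + 1 := by
  have hex : ∃ n, RchS G C n a b := hC.2 a ha b hb
  obtain ⟨p, hp, hs⟩ := Nat.find_spec hex
  have hmin : ∀ m, RchS G C m a b → p.length ≤ m := fun m hm => hp.trans (Nat.find_min' hex hm)
  refine ⟨{z | z ∈ p.support}, fun z hz => hs z hz, by simp, by simp, ?_, ?_⟩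
  · intro z hz
    refine ⟨(p.takeUntil z hz).length, p.takeUntil z hz, le_rfl, ?_⟩
    intro x hx
    exact p.support_takeUntil_subset_support hz hx
  · intro ρ v
    have hpos : ∀ z, z ∈ p.support → ∃ k, k ≤ p.length ∧ p.getVert k = z ∧ RchS G C k a z ∧
        ∀ m, RchS G C m a z → k ≤ m := by
      intro z hz
      have hlen : (p.takeUntil z hz).length + (p.dropUntil z hz).length = p.length := by
        conv_rhs => rw [← p.take_spec hz]
        rw [SimpleGraph.Walk.length_append]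
      refine ⟨(p.takeUntil z hz).length, by omega, ?_, ?_, ?_⟩
      · exact p.getVert_length_takeUntil hz
      · exact ⟨p.takeUntil z hz, le_rfl, fun x hx => hs x (p.support_takeUntil_subset_support hz hx)⟩
      · intro m hm
        have h1 : RchS G C (p.dropUntil z hz).length z b :=
          ⟨p.dropUntil z hz, le_rfl, fun x hx => hs x (p.support_dropUntil_subset_support hz hx)⟩
        have h2 := hmin _ (hm.trans h1)
        omega
    have hpos' : ∀ z, ∃ k, z ∈ p.support → (k ≤ p.length ∧ p.getVert k = z ∧ RchS G C k a z ∧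
        ∀ m, RchS G C m a z → k ≤ m) := by
      intro z
      by_cases hz : z ∈ p.support
      · obtain ⟨k, hk⟩ := hpos z hz
        exact ⟨k, fun _ => hk⟩
      · exact ⟨0, fun h => absurd h hz⟩
    choose pos hpos2 using hpos'
    set T : Set V := {z | z ∈ p.support ∧ RchS G C ρ v z} with hT
    by_cases hne : T.Nonempty
    swap
    · rw [Set.not_nonempty_iff_eq_empty] at hne
      have : {z | z ∈ {z | z ∈ p.support} ∧ RchS G C ρ v z} = T := rfl
      rw [this, hne]
      simp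
    obtain ⟨z0, hz0, hz0min⟩ := Set.exists_min_image T pos (Set.toFinite _) hne
    have hsub : Set.InjOn pos T := by
      intro x hx y hy hxy
      have h1 := (hpos2 x hx.1).2.1
      have h2 := (hpos2 y hy.1).2.1
      rw [← h1, ← h2, hxy]
    have himg : pos '' T ⊆ Set.Icc (pos z0) (pos z0 + 2 * ρ) := by
      rintro _ ⟨z, hz, rfl⟩
      refine ⟨hz0min z hz, ?_⟩
      have h1 := (hpos2 z0 hz0.1).2.2.1
      have h2 := h1.trans (hz0.2.symm.trans hz.2)
      have h3 := (hpos2 z hz.1).2.2.2 _ h2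
      omega
    calc T.ncard = (pos '' T).ncard := (Set.ncard_image_of_injOn hsub).symm
      _ ≤ (Set.Icc (pos z0) (pos z0 + 2 * ρ)).ncard :=
          Set.ncard_le_ncard himg (Set.finite_Icc _ _)
      _ = 2 * ρ + 1 := by
          rw [Set.ncard_eq_toFinset_card']
          simp
          omega

end Pool.Agent.H89.Rad
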