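import Pool.Agent.H89.RadC

set_option autoImplicit false

open Classical

namespace Pool.Agent.H89.Rad

variable {V : Type*} {G : SimpleGraph V}

/-- Property (D1): few vertices of one level near a vertex. -/
def PropA (G : SimpleGraph V) (t : ℕ) (C : Set V) (lev : V → ℕ) : Prop :=
  ∀ (i ρ : ℕ) (v : V), v ∈ C →
    {z | z ∈ C ∧ lev z = i ∧ RchS G (C ∩ {w | i ≤ lev w}) ρ v z}.ncard ≤ t * (2 * ρ + 1)

/-- The component of `v` in the vertices of `C` of level at least the level of `v`. -/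
def own (G : SimpleGraph V) (C : Set V) (lev : V → ℕ) (v : V) : Set V :=
  comp G (C ∩ {w | lev v ≤ lev w}) v

/-- Property (D2): few earlier levels adjacent to the component of a vertex. -/
def PropB (G : SimpleGraph V) (t b : ℕ) (Q : ℕ → Set V) (L : Finset ℕ) (C : Set V)
    (lev : V → ℕ) : Prop :=
  ∀ v ∈ C, {i | (i ∈ L ∧ AdjS G (Q i) (own G C lev v)) ∨
    (b ≤ i ∧ i < lev v ∧ AdjS G {z | z ∈ C ∧ lev z = i} (own G C lev v))}.ncard ≤ t

/-- Glueing of the level functions of the components of `C \ H`. -/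
noncomputable def glue (G : SimpleGraph V) (C H : Set V) (b : ℕ) (F : Set V → V → ℕ) (v : V) : ℕ :=
  if v ∈ H then b else F (comp G (C \ H) v) v

section glue

variable {C H : Set V} {b : ℕ} {F : Set V → V → ℕ}

lemma glue_H {v : V} (h : v ∈ H) : glue G C H b F v = b := by
  unfold glue; rw [if_pos h]

lemma glue_comp {v w : V} (hw : w ∈ comp G (C \ H) v) :
    glue G C H b F w = F (comp G (C \ H) v) w := by
  unfold glue
  have h1 : w ∉ H := (comp_subset _ _ hw).2
  rw [if_neg h1, comp_eq hw]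

variable (hF : ∀ v ∈ C \ H, ∀ w ∈ comp G (C \ H) v, b + 1 ≤ F (comp G (C \ H) v) w)

include hF in
lemma glue_ge {v : V} (hv : v ∈ C \ H) : b + 1 ≤ glue G C H b F v := by
  rw [glue_comp (mem_comp_self hv)]
  exact hF v hv v (mem_comp_self hv)

omit hF in
/-- Reachability in high levels stays in the component. -/
lemma glue_rch {v z : V} {i n : ℕ} (hi : b + 1 ≤ i)
    (h : RchS G (C ∩ {w | i ≤ glue G C H b F w}) n v z) :
    RchS G (comp G (C \ H) v ∩ {w | i ≤ F (comp G (C \ H) v) w}) n v z := by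
  have hsub : C ∩ {w | i ≤ glue G C H b F w} ⊆ C \ H := by
    rintro w ⟨hw, hw'⟩
    refine ⟨hw, fun hH => ?_⟩
    have : i ≤ glue G C H b F w := hw'
    rw [glue_H hH] at this
    omega
  obtain ⟨p, hp, hs⟩ := h
  refine ⟨p, hp, ?_⟩
  intro w hw
  have h1 : w ∈ comp G (C \ H) v := by
    refine ⟨(p.takeUntil w hw).length, p.takeUntil w hw, le_rfl, ?_⟩
    intro x hx
    exact hsub (hs x (p.support_takeUntil_subset_support hw hx))
  refine ⟨h1, ?_⟩
  have h2 : i ≤ glue G C H b F w := (hs w hw).2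
  rw [glue_comp h1] at h2
  exact h2

include hF in
lemma glue_own {v : V} (hv : v ∈ C \ H) :
    own G C (glue G C H b F) v = own G (comp G (C \ H) v) (F (comp G (C \ H) v)) v := by
  have hge := glue_ge hF hv
  have hvv := mem_comp_self (G := G) hv
  have heq : glue G C H b F v = F (comp G (C \ H) v) v := glue_comp hvv
  unfold own
  apply Set.Subset.antisymm
  · rintro w ⟨n, hn⟩
    refine ⟨n, ?_⟩
    have := glue_rch hge hn
    rw [heq] at this
    exact this
  · apply comp_mono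
    rintro w ⟨hw, hw'⟩
    refine ⟨(comp_subset _ _ hw).1, ?_⟩
    show glue G C H b F v ≤ glue G C H b F w
    rw [glue_comp hw, heq]
    exact hw'

include hF in
/-- Glueing, property (D1). -/
lemma glue_propA [Finite V] {t : ℕ}
    (hH : ∀ (ρ : ℕ) (v : V), v ∈ C → {z | z ∈ H ∧ RchS G C ρ v z}.ncard ≤ t * (2 * ρ + 1))
    (hA : ∀ v ∈ C \ H, PropA G t (comp G (C \ H) v) (F (comp G (C \ H) v))) :
    PropA G t C (glue G C H b F) := by
  intro i ρ v hv
  rcases Nat.lt_trichotomy i b with hi | hi | hi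
  · -- no vertices of level `i`
    have : {z | z ∈ C ∧ glue G C H b F z = i ∧
        RchS G (C ∩ {w | i ≤ glue G C H b F w}) ρ v z} = ∅ := by
      rw [Set.eq_empty_iff_forall_notMem]
      rintro z ⟨hz, hz', _⟩
      by_cases hzH : z ∈ H
      · rw [glue_H hzH] at hz'; omega
      · have := glue_ge hF (v := z) ⟨hz, hzH⟩
        omega
    rw [this]
    simp
  · subst hi
    refine le_trans (Set.ncard_le_ncard ?_ (Set.toFinite _)) (hH ρ v hv)
    rintro z ⟨hz, hz', hr⟩
    refine ⟨?_, hr.mono Set.inter_subset_left le_rfl⟩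
    by_contra hzH
    have := glue_ge hF (v := z) ⟨hz, hzH⟩
    omega
  · by_cases hvH : v ∈ H
    · have : {z | z ∈ C ∧ glue G C H b F z = i ∧
          RchS G (C ∩ {w | i ≤ glue G C H b F w}) ρ v z} = ∅ := by
        rw [Set.eq_empty_iff_forall_notMem]
        rintro z ⟨hz, hz', hr⟩
        have : i ≤ glue G C H b F v := hr.left.2
        rw [glue_H hvH] at this
        omega
      rw [this]
      simp
    · refine le_trans (Set.ncard_le_ncard ?_ (Set.toFinite _))
        (hA v ⟨hv, hvH⟩ i ρ v (mem_comp_self ⟨hv, hvH⟩))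
      rintro z ⟨hz, hz', hr⟩
      have h1 := glue_rch (by omega) hr
      have h2 : z ∈ comp G (C \ H) v := h1.right.1
      refine ⟨h2, ?_, h1⟩
      rw [← glue_comp (b := b) (F := F) h2]
      exact hz'

include hF in
/-- Glueing, property (D2). -/
lemma glue_propB [Finite V] {t : ℕ} {Q : ℕ → Set V} {L : Finset ℕ}
    (hL : ∀ i ∈ L, i < b) (hLt : L.card ≤ t) (L' : Set V → Finset ℕ)
    (hL' : ∀ v ∈ C \ H, ∀ i, (i ∈ L ∧ AdjS G (Q i) (comp G (C \ H) v)) ∨
      (i = b ∧ AdjS G H (comp G (C \ H) v)) → i ∈ L' (comp G (C \ H) v))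
    (hB : ∀ v ∈ C \ H, PropB G t (b + 1) (Function.update Q b H) (L' (comp G (C \ H) v))
      (comp G (C \ H) v) (F (comp G (C \ H) v))) :
    PropB G t b Q L C (glue G C H b F) := by
  intro v hv
  by_cases hvH : v ∈ H
  · refine le_trans (Set.ncard_le_ncard (t := (L : Set ℕ)) ?_ L.finite_toSet) ?_
    · rintro i (hi | hi)
      · exact hi.1
      · rw [glue_H hvH] at hi
        omega
    · rw [Set.ncard_coe_finset]
      exact hLt
  · have hvC : v ∈ C \ H := ⟨hv, hvH⟩
    have hvv := mem_comp_self (G := G) hvC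
    have h0 := hB v hvC v hvv
    rw [glue_own hF hvC]
    have hownsub : own G (comp G (C \ H) v) (F (comp G (C \ H) v)) v ⊆ comp G (C \ H) v := by
      refine (comp_subset _ _).trans Set.inter_subset_left
    refine le_trans (Set.ncard_le_ncard ?_ ?_) h0
    · rintro i (⟨hi, q, hq, w, hw, hqw⟩ | ⟨hi1, hi2, q, hq, w, hw, hqw⟩)
      · left
        refine ⟨hL' v hvC i (Or.inl ⟨hi, q, hq, w, hownsub hw, hqw⟩), ?_⟩
        have : i ≠ b := by
          have := hL i hi
          omega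
        rw [Function.update_of_ne this]
        exact ⟨q, hq, w, hw, hqw⟩
      · rcases Nat.lt_or_ge b i with hbi | hbi
        · right
          refine ⟨hbi, ?_, q, ?_, w, hw, hqw⟩
          · rw [← glue_comp (b := b) (F := F) hvv]
            exact hi2
          · obtain ⟨hqC, hqi⟩ := hq
            have hqH : q ∉ H := by
              intro hqH
              rw [glue_H hqH] at hqi
              omega
            have h3 : q ∈ comp G (C \ H) v :=
              mem_comp_of_adj (hownsub hw) ⟨hqC, hqH⟩ hqw.symm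
            refine ⟨h3, ?_⟩
            rw [← glue_comp (b := b) (F := F) h3]
            exact hqi
        · have hib : i = b := by omega
          subst hib
          left
          obtain ⟨hqC, hqi⟩ := hq
          have hqH : q ∈ H := by
            by_contra hqH
            have := glue_ge hF (v := q) ⟨hqC, hqH⟩
            omega
          refine ⟨hL' v hvC i (Or.inr ⟨rfl, q, hqH, w, hownsub hw, hqw⟩), ?_⟩
          rw [Function.update_self]
          exact ⟨q, hqH, w, hw, hqw⟩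
    · refine Set.Finite.subset ((L' (comp G (C \ H) v)).finite_toSet.union
        (Set.finite_lt_nat (F (comp G (C \ H) v) v))) ?_
      rintro i (hi | hi)
      · exact Or.inl hi.1
      · exact Or.inr hi.2.1

end glue

/-- Connectedness in terms of the induced graph. -/
lemma connS_induce {S : Set V} (h : ConnS G S) : (G.induce S).Connected := by
  obtain ⟨⟨v, hv⟩, h⟩ := h
  have : Nonempty S := ⟨⟨v, hv⟩⟩
  refine ⟨?_⟩
  rintro ⟨a, ha⟩ ⟨b, hb⟩
  obtain ⟨n, p, _, hs⟩ := h a ha b hb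
  exact ⟨p.induce S hs⟩

lemma AdjS.symm {A B : Set V} (h : AdjS G A B) : AdjS G B A := by
  obtain ⟨a, ha, b, hb, hab⟩ := h
  exact ⟨b, hb, a, ha, hab.symm⟩

lemma card_le_of_minorFree {t : ℕ} (ht : KMinorFree (t + 2) G) {C : Set V} (hC : ConnS G C)
    {Q : ℕ → Set V} {L : Finset ℕ}
    (h1 : ∀ i ∈ L, ConnS G (Q i) ∧ Disjoint (Q i) C ∧ AdjS G (Q i) C)
    (h2 : ∀ i ∈ L, ∀ j ∈ L, i ≠ j → Disjoint (Q i) (Q j) ∧ AdjS G (Q i) (Q j)) :
    L.card ≤ t := by
  by_contra hcon
  apply ht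
  have hle : t + 1 ≤ L.card := by omega
  have hmem := fun i => L.orderEmbOfCardLe_mem hle i
  have hne : ∀ i j : Fin (t + 1), i ≠ j →
      L.orderEmbOfCardLe hle i ≠ L.orderEmbOfCardLe hle j :=
    fun i j hij h => hij ((L.orderEmbOfCardLe hle).injective h)
  refine ⟨Fin.cons C (fun i => Q (L.orderEmbOfCardLe hle i)), ?_, ?_, ?_⟩
  · intro i
    refine Fin.cases ?_ (fun i => ?_) i
    · exact connS_induce hC
    · exact connS_induce (h1 _ (hmem i)).1
  · intro i j
    refine Fin.cases ?_ (fun i => ?_) i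
    · refine Fin.cases ?_ (fun j => ?_) j
      · intro h; exact absurd rfl h
      · intro _
        simpa using (h1 _ (hmem j)).2.1.symm
    · refine Fin.cases ?_ (fun j => ?_) j
      · intro _
        simpa using (h1 _ (hmem i)).2.1
      · intro h
        have hij : i ≠ j := fun e => h (by rw [e])
        simpa using (h2 _ (hmem i) _ (hmem j) (hne i j hij)).1
  · intro i j
    refine Fin.cases ?_ (fun i => ?_) i
    · refine Fin.cases ?_ (fun j => ?_) j
      · intro h; exact absurd rfl h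
      · intro _
        have := (h1 _ (hmem j)).2.2.symm
        simpa [AdjS] using this
    · refine Fin.cases ?_ (fun j => ?_) j
      · intro _
        have := (h1 _ (hmem i)).2.2
        simpa [AdjS] using this
      · intro h
        have hij : i ≠ j := fun e => h (by rw [e])
        have := (h2 _ (hmem i) _ (hmem j) (hne i j hij)).2
        simpa [AdjS] using this

/-- The separator of one step. -/
lemma exists_sep [Finite V] {t : ℕ} (h1t : 1 ≤ t) {C : Set V} (hC : ConnS G C) {Q : ℕ → Set V} {L : Finset ℕ}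
    (hadj : ∀ i ∈ L, AdjS G (Q i) C) (hLt : L.card ≤ t) :
    ∃ H : Set V, H ⊆ C ∧ ConnS G H ∧ (∀ i ∈ L, AdjS G (Q i) H) ∧
      ∀ (ρ : ℕ) (v : V), v ∈ C →
        {z | z ∈ H ∧ RchS G C ρ v z}.ncard ≤ t * (2 * ρ + 1) := by
  by_cases hL : L.Nonempty
  swap
  · rw [Finset.not_nonempty_iff_eq_empty] at hL
    subst hL
    obtain ⟨v0, hv0⟩ := hC.1
    refine ⟨{v0}, by simpa using hv0, ⟨⟨v0, rfl⟩, ?_⟩, by simp, ?_⟩
    · rintro a rfl b rfl
      exact ⟨0, RchS.refl 0 rfl⟩
    · intro ρ v _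
      have h1 : {z | z ∈ ({v0} : Set V) ∧ RchS G C ρ v z} ⊆ {v0} := fun z hz => hz.1
      have h2 := Set.ncard_le_ncard h1 (Set.toFinite _)
      rw [Set.ncard_singleton] at h2
      refine h2.trans ?_
      have : 0 < t * (2 * ρ + 1) := by positivity
      omega
  obtain ⟨i0, hi0⟩ := hL
  have hw : ∀ i, ∃ w, i ∈ L → w ∈ C ∧ ∃ q ∈ Q i, G.Adj q w := by
    intro i
    by_cases hi : i ∈ L
    · obtain ⟨q, hq, w, hw, hqw⟩ := hadj i hi
      exact ⟨w, fun _ => ⟨hw, q, hq, hqw⟩⟩
    · obtain ⟨v0, hv0⟩ := hC.1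
      exact ⟨v0, fun h => absurd h hi⟩
  choose w hw using hw
  have hP : ∀ i, ∃ P : Set V, i ∈ L → (P ⊆ C ∧ w i0 ∈ P ∧ w i ∈ P ∧
      (∀ z ∈ P, ∃ n, RchS G P n (w i0) z) ∧
      ∀ (ρ : ℕ) (v : V), {z | z ∈ P ∧ RchS G C ρ v z}.ncard ≤ 2 * ρ + 1) := by
    intro i
    by_cases hi : i ∈ L
    · obtain ⟨P, hP⟩ := geodesic hC (hw i0 hi0).1 (hw i hi).1
      exact ⟨P, fun _ => hP⟩
    · exact ⟨∅, fun h => absurd h hi⟩
  choose P hP using hP
  refine ⟨⋃ i ∈ L, P i, ?_, ⟨⟨w i0, ?_⟩, ?_⟩, ?_, ?_⟩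
  · exact Set.iUnion₂_subset fun i hi => (hP i hi).1
  · exact Set.mem_biUnion hi0 (hP i0 hi0).2.1
  · have key : ∀ z ∈ ⋃ i ∈ L, P i, ∃ n, RchS G (⋃ i ∈ L, P i) n (w i0) z := by
      intro z hz
      simp only [Set.mem_iUnion] at hz
      obtain ⟨i, hi, hz⟩ := hz
      obtain ⟨n, hn⟩ := (hP i hi).2.2.2.1 z hz
      exact ⟨n, hn.mono (fun x hx => Set.mem_biUnion hi hx) le_rfl⟩
    intro a ha b hb
    obtain ⟨n, hn⟩ := key a ha
    obtain ⟨m, hm⟩ := key b hb
    exact ⟨_, hn.symm.trans hm⟩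
  · intro i hi
    obtain ⟨q, hq, hqw⟩ := (hw i hi).2
    exact ⟨q, hq, w i, Set.mem_biUnion hi (hP i hi).2.2.1, hqw⟩
  · intro ρ v _
    have h1 : {z | z ∈ (⋃ i ∈ L, P i) ∧ RchS G C ρ v z} ⊆
        ⋃ i ∈ L, {z | z ∈ P i ∧ RchS G C ρ v z} := by
      rintro z ⟨hz, hz'⟩
      simp only [Set.mem_iUnion] at hz
      obtain ⟨i, hi, hz⟩ := hz
      exact Set.mem_biUnion hi ⟨hz, hz'⟩
    refine (Set.ncard_le_ncard h1 (Set.toFinite _)).trans ?_
    refine (Finset.set_ncard_biUnion_le L _).trans ?_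
    refine (Finset.sum_le_card_nsmul L _ (2 * ρ + 1) (fun i hi => (hP i hi).2.2.2.2 ρ v)).trans ?_
    rw [smul_eq_mul]
    exact Nat.mul_le_mul_right _ hLt

/-- The level function. -/
theorem levels [Finite V] {t : ℕ} (h1t : 1 ≤ t) (ht : KMinorFree (t + 2) G) : ∀ (n : ℕ) (C : Set V), C.ncard ≤ n →
    ConnS G C → ∀ (b : ℕ) (Q : ℕ → Set V) (L : Finset ℕ),
    (∀ i ∈ L, i < b ∧ ConnS G (Q i) ∧ Disjoint (Q i) C ∧ AdjS G (Q i) C) →
    (∀ i ∈ L, ∀ j ∈ L, i ≠ j → Disjoint (Q i) (Q j) ∧ AdjS G (Q i) (Q j)) →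
    ∃ lev : V → ℕ, (∀ v ∈ C, b ≤ lev v) ∧ PropA G t C lev ∧ PropB G t b Q L C lev := by
  intro n
  induction n with
  | zero =>
    intro C hn hC
    exfalso
    have h1 : C.ncard = 0 := by omega
    rw [Set.ncard_eq_zero (Set.toFinite _)] at h1
    exact hC.1.ne_empty h1
  | succ n ih =>
    intro C hn hC b Q L hQ hQQ
    have hLt := card_le_of_minorFree ht hC (fun i hi => (hQ i hi).2) hQQ
    obtain ⟨H, hHC, hHconn, hHadj, hHball⟩ := exists_sep h1t hC (fun i hi => (hQ i hi).2.2.2) hLt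
    set L' : Set V → Finset ℕ := fun D => (L.filter (fun i => AdjS G (Q i) D)) ∪
      (if AdjS G H D then {b} else ∅) with hL'
    have hmemL' : ∀ D i, i ∈ L' D ↔ (i ∈ L ∧ AdjS G (Q i) D) ∨ (i = b ∧ AdjS G H D) := by
      intro D i
      simp only [hL', Finset.mem_union, Finset.mem_filter]
      by_cases h : AdjS G H D
      · simp [h]
      · simp [h]
    have hstep : ∀ D : Set V, ∃ lev : V → ℕ, (∃ v ∈ C \ H, D = comp G (C \ H) v) →
        (∀ v ∈ D, b + 1 ≤ lev v) ∧ PropA G t D lev ∧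
          PropB G t (b + 1) (Function.update Q b H) (L' D) D lev := by
      intro D
      by_cases hD : ∃ v ∈ C \ H, D = comp G (C \ H) v
      swap
      · exact ⟨fun _ => 0, fun h => absurd h hD⟩
      obtain ⟨v, hv, rfl⟩ := hD
      have hDsub : comp G (C \ H) v ⊆ C \ H := comp_subset _ _
      have hcard : (comp G (C \ H) v).ncard ≤ n := by
        obtain ⟨h0, hh0⟩ := hHconn.1
        have hlt : (comp G (C \ H) v).ncard < C.ncard := by
          apply Set.ncard_lt_ncard _ (Set.toFinite _)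
          refine ⟨hDsub.trans Set.sdiff_subset, fun hcon => ?_⟩
          exact (hDsub (hcon (hHC hh0))).2 hh0
        omega
      have hq1 : ∀ i ∈ L' (comp G (C \ H) v), i < b + 1 ∧ ConnS G (Function.update Q b H i) ∧
          Disjoint (Function.update Q b H i) (comp G (C \ H) v) ∧
          AdjS G (Function.update Q b H i) (comp G (C \ H) v) := by
        intro i hi
        rcases (hmemL' _ i).mp hi with ⟨hi1, hi2⟩ | ⟨hib, hi2⟩
        · have h1 := hQ i hi1
          have h2 : i ≠ b := by omega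
          rw [Function.update_of_ne h2]
          exact ⟨by omega, h1.2.1, Set.disjoint_of_subset_right (hDsub.trans Set.sdiff_subset)
            h1.2.2.1, hi2⟩
        · subst hib
          rw [Function.update_self]
          refine ⟨by omega, hHconn, ?_, hi2⟩
          exact Set.disjoint_of_subset_right hDsub Set.disjoint_sdiff_right
      have hq2 : ∀ i ∈ L' (comp G (C \ H) v), ∀ j ∈ L' (comp G (C \ H) v), i ≠ j →
          Disjoint (Function.update Q b H i) (Function.update Q b H j) ∧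
          AdjS G (Function.update Q b H i) (Function.update Q b H j) := by
        intro i hi j hj hij
        rcases (hmemL' _ i).mp hi with ⟨hi1, hi2⟩ | ⟨hib, hi2⟩
        · have h2 : i ≠ b := by
            have := (hQ i hi1).1
            omega
          rw [Function.update_of_ne h2]
          rcases (hmemL' _ j).mp hj with ⟨hj1, hj2⟩ | ⟨hjb, hj2⟩
          · have h3 : j ≠ b := by
              have := (hQ j hj1).1
              omega
            rw [Function.update_of_ne h3]
            exact hQQ i hi1 j hj1 hij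
          · subst hjb
            rw [Function.update_self]
            exact ⟨Set.disjoint_of_subset_right hHC (hQ i hi1).2.2.1, hHadj i hi1⟩
        · subst hib
          rw [Function.update_self]
          rcases (hmemL' _ j).mp hj with ⟨hj1, hj2⟩ | ⟨hjb, hj2⟩
          · rw [Function.update_of_ne hij.symm]
            refine ⟨(Set.disjoint_of_subset_right hHC (hQ j hj1).2.2.1).symm, ?_⟩
            obtain ⟨q, hq, w, hw, hqw⟩ := hHadj j hj1
            exact ⟨w, hw, q, hq, hqw.symm⟩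
          · exact absurd hjb.symm hij
      obtain ⟨lev, hlev⟩ := ih (comp G (C \ H) v) hcard (comp_conn hv) (b + 1)
        (Function.update Q b H) (L' (comp G (C \ H) v)) hq1 hq2
      exact ⟨lev, fun _ => hlev⟩
    choose F hF using hstep
    have hF1 : ∀ v ∈ C \ H, ∀ w ∈ comp G (C \ H) v, b + 1 ≤ F (comp G (C \ H) v) w :=
      fun v hv => (hF _ ⟨v, hv, rfl⟩).1
    refine ⟨glue G C H b F, ?_, ?_, ?_⟩
    · intro v hv
      by_cases hvH : v ∈ H
      · rw [glue_H hvH]
      · have := glue_ge hF1 (v := v) ⟨hv, hvH⟩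
        omega
    · exact glue_propA hF1 hHball (fun v hv => (hF _ ⟨v, hv, rfl⟩).2.1)
    · exact glue_propB hF1 (fun i hi => (hQ i hi).1) hLt L'
        (fun v hv i hi => (hmemL' _ i).mpr hi) (fun v hv => (hF _ ⟨v, hv, rfl⟩).2.2)

/-- The level function of a whole graph. -/
theorem levels_univ [Finite V] {t : ℕ} (h1t : 1 ≤ t) (ht : KMinorFree (t + 2) G) :
    ∃ lev : V → ℕ, PropA G t Set.univ lev ∧ PropB G t 0 (fun _ => ∅) ∅ Set.univ lev := by
  have hstep : ∀ D : Set V, ∃ lev : V → ℕ, (∃ v ∈ (Set.univ : Set V) \ ∅,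
      D = comp G ((Set.univ : Set V) \ ∅) v) →
        (∀ v ∈ D, 0 + 1 ≤ lev v) ∧ PropA G t D lev ∧
          PropB G t (0 + 1) (Function.update (fun _ => ∅) 0 ∅) ∅ D lev := by
    intro D
    by_cases hD : ∃ v ∈ (Set.univ : Set V) \ ∅, D = comp G ((Set.univ : Set V) \ ∅) v
    swap
    · exact ⟨fun _ => 0, fun h => absurd h hD⟩
    obtain ⟨v, hv, rfl⟩ := hD
    obtain ⟨lev, hlev⟩ := levels h1t ht _ (comp G ((Set.univ : Set V) \ ∅) v) le_rfl (comp_conn hv)
      (0 + 1) (Function.update (fun _ => ∅) 0 ∅) ∅ (by simp) (by simp)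
    exact ⟨lev, fun _ => hlev⟩
  choose F hF using hstep
  have hF1 : ∀ v ∈ (Set.univ : Set V) \ ∅, ∀ w ∈ comp G ((Set.univ : Set V) \ ∅) v,
      0 + 1 ≤ F (comp G ((Set.univ : Set V) \ ∅) v) w :=
    fun v hv => (hF _ ⟨v, hv, rfl⟩).1
  refine ⟨glue G Set.univ ∅ 0 F, ?_, ?_⟩
  · refine glue_propA hF1 ?_ (fun v hv => (hF _ ⟨v, hv, rfl⟩).2.1)
    intro ρ v _
    simp
  · refine glue_propB hF1 (by simp) (by simp) (fun _ => ∅) ?_
      (fun v hv => (hF _ ⟨v, hv, rfl⟩).2.2)
    rintro v hv i (hi | hi)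
    · simp at hi
    · obtain ⟨a, ha, _⟩ := hi.2
      exact absurd ha (by simp)

end Pool.Agent.H89.Rad
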