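import Mathlib

/-!
# Counting descending paths in a nested family
-/

set_option autoImplicit false

namespace Pool.Agent.H89.Rad

/-- Levels reached from `l` in at most `ρ` steps. -/
def RR (A : ℕ → Set ℕ) : ℕ → ℕ → Set ℕ
  | 0, l => {l}
  | (ρ + 1), l => RR A ρ l ∪ ⋃ m ∈ RR A ρ l, A m

lemma RR_mono {A : ℕ → Set ℕ} {n m : ℕ} (h : n ≤ m) (l : ℕ) : RR A n l ⊆ RR A m l := by
  induction m with
  | zero =>
    have : n = 0 := by omega
    rw [this]
  | succ m ih =>
    rcases Nat.lt_or_ge n (m + 1) with h1 | h1
    · exact (ih (by omega)).trans Set.subset_union_left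
    · have : n = m + 1 := by omega
      rw [this]

lemma RR_le {A : ℕ → Set ℕ} (h1 : ∀ m, ∀ i ∈ A m, i < m) (n l : ℕ) : ∀ i ∈ RR A n l, i ≤ l := by
  induction n with
  | zero => intro i hi; exact le_of_eq hi
  | succ n ih =>
    intro i hi
    rcases hi with hi | hi
    · exact ih i hi
    · simp only [Set.mem_iUnion] at hi
      obtain ⟨m, hm, hi⟩ := hi
      exact (h1 m i hi).le.trans (ih m hm)

lemma RR_finite {A : ℕ → Set ℕ} (h1 : ∀ m, ∀ i ∈ A m, i < m) (n l : ℕ) : (RR A n l).Finite :=
  (Set.finite_le_nat l).subset (RR_le h1 n l)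

/-- The lower part is reached from the least out-neighbour with one step less. -/
lemma RR_low {A : ℕ → Set ℕ} (h1 : ∀ m, ∀ i ∈ A m, i < m)
    (h2 : ∀ m, ∀ i ∈ A m, ∀ j, i < j → j ≤ m → i ∈ A j) {c l a : ℕ}
    (ha : a ∈ A l) (hamin : ∀ i ∈ A l, c ≤ i → a ≤ i) (n : ℕ) :
    ∀ i ∈ RR A (n + 1) l, c ≤ i → i ≤ a → i ∈ RR A n a := by
  have hal := h1 l a ha
  induction n with
  | zero =>
    intro i hi hci hia
    rcases hi with hi | hi
    · have : i = l := hi
      omega
    · simp only [Set.mem_iUnion] at hi
      obtain ⟨m, hm, hi⟩ := hi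
      have : m = l := hm
      subst this
      have := hamin i hi hci
      exact (by omega : i = a)
  | succ n ih =>
    intro i hi hci hia
    rcases hi with hi | hi
    · exact RR_mono (Nat.le_succ n) a (ih i hi hci hia)
    · simp only [Set.mem_iUnion] at hi
      obtain ⟨m, hm, hi⟩ := hi
      have him := h1 m i hi
      rcases Nat.lt_or_ge a m with h | h
      · rcases Nat.lt_or_ge i a with h3 | h3
        · have h4 : i ∈ A a := h2 m i hi a h3 h.le
          have h5 : i ∈ RR A 1 a := by
            right
            simp only [Set.mem_iUnion]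
            exact ⟨a, rfl, h4⟩
          exact RR_mono (by omega) a h5
        · have : i = a := by omega
          subst this
          exact RR_mono (Nat.zero_le _) i (rfl : i ∈ RR A 0 i)
      · right
        simp only [Set.mem_iUnion]
        exact ⟨m, ih m hm (by omega) h, hi⟩

/-- Without out-neighbours above `c` nothing else above `c` is reached. -/
lemma RR_empty {A : ℕ → Set ℕ} (h1 : ∀ m, ∀ i ∈ A m, i < m) {c l : ℕ}
    (hemp : ∀ i ∈ A l, ¬ c ≤ i) (n : ℕ) : ∀ i ∈ RR A n l, c ≤ i → i = l := by
  induction n with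
  | zero => intro i hi _; exact hi
  | succ n ih =>
    intro i hi hci
    rcases hi with hi | hi
    · exact ih i hi hci
    · simp only [Set.mem_iUnion] at hi
      obtain ⟨m, hm, hi⟩ := hi
      have him := h1 m i hi
      have hml := ih m hm (by omega)
      subst hml
      exact absurd hci (hemp i hi)

theorem RR_count {A : ℕ → Set ℕ} (h1 : ∀ m, ∀ i ∈ A m, i < m)
    (h2 : ∀ m, ∀ i ∈ A m, ∀ j, i < j → j ≤ m → i ∈ A j) :
    ∀ (n k c l : ℕ), (∀ m, c ≤ m → m ≤ l → (A m ∩ Set.Ici c).ncard ≤ k) →
      (RR A n l ∩ Set.Ici c).ncard ≤ (n + k).choose k := by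
  have hAfin : ∀ m c, (A m ∩ Set.Ici c).Finite := fun m c =>
    ((Set.finite_lt_nat m).subset (h1 m)).subset Set.inter_subset_left
  intro n
  induction n with
  | zero =>
    intro k c l _
    have : RR A 0 l ∩ Set.Ici c ⊆ {l} := Set.inter_subset_left
    have h3 := Set.ncard_le_ncard this (Set.toFinite _)
    simpa using h3
  | succ n ihn =>
    intro k
    induction k with
    | zero =>
      intro c l hA
      by_cases hcl : c ≤ l
      · have hemp : ∀ i ∈ A l, ¬ c ≤ i := by
          intro i hi hci
          have h3 := hA l hcl le_rfl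
          have h4 : (A l ∩ Set.Ici c).ncard = 0 := by omega
          rw [Set.ncard_eq_zero (hAfin l c)] at h4
          exact Set.eq_empty_iff_forall_notMem.mp h4 i ⟨hi, hci⟩
        have : RR A (n + 1) l ∩ Set.Ici c ⊆ {l} := fun i hi => RR_empty h1 hemp _ i hi.1 hi.2
        have h3 := Set.ncard_le_ncard this (Set.toFinite _)
        simpa using h3
      · have : RR A (n + 1) l ∩ Set.Ici c ⊆ {l} := by
          rintro i ⟨hi, hi'⟩
          have := RR_le h1 _ _ i hi
          have hi'' : c ≤ i := hi'
          omega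
        have h3 := Set.ncard_le_ncard this (Set.toFinite _)
        simpa using h3
    | succ k ihk =>
      intro c l hA
      have hone : 1 ≤ (n + 1 + (k + 1)).choose (k + 1) := Nat.choose_pos (by omega)
      by_cases hcl : c ≤ l
      swap
      · have : RR A (n + 1) l ∩ Set.Ici c ⊆ {l} := by
          rintro i ⟨hi, hi'⟩
          have := RR_le h1 _ _ i hi
          have hi'' : c ≤ i := hi'
          omega
        have h3 := Set.ncard_le_ncard this (Set.toFinite _)
        rw [Set.ncard_singleton] at h3
        exact h3.trans hone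
      by_cases hemp : ∀ i ∈ A l, ¬ c ≤ i
      · have : RR A (n + 1) l ∩ Set.Ici c ⊆ {l} := fun i hi => RR_empty h1 hemp _ i hi.1 hi.2
        have h3 := Set.ncard_le_ncard this (Set.toFinite _)
        rw [Set.ncard_singleton] at h3
        exact h3.trans hone
      push Not at hemp
      obtain ⟨a, ⟨haA, hca⟩, hamin⟩ := Set.exists_min_image (A l ∩ Set.Ici c) id (hAfin l c)
        (by obtain ⟨i, hi, hi'⟩ := hemp; exact ⟨i, hi, hi'⟩)
      have hca' : c ≤ a := hca
      have hamin' : ∀ i ∈ A l, c ≤ i → a ≤ i := fun i hi hci => hamin i ⟨hi, hci⟩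
      have hal := h1 l a haA
      -- upper part
      have hup : (RR A (n + 1) l ∩ Set.Ici (a + 1)).ncard ≤ (n + 1 + k).choose k := by
        apply ihk
        intro m hm hml
        have ham : a ∈ A m := h2 l a haA m (by omega) hml
        have hsub : A m ∩ Set.Ici (a + 1) ⊂ A m ∩ Set.Ici c := by
          refine ⟨fun i hi => ⟨hi.1, ?_⟩, fun hcon => ?_⟩
          · have : a + 1 ≤ i := hi.2
            exact (by omega : c ≤ i)
          · have h5 := hcon ⟨ham, hca⟩
            have : a + 1 ≤ a := h5.2
            omega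
        have h5 := Set.ncard_lt_ncard hsub (hAfin m c)
        have h6 := hA m (by omega) hml
        omega
      have hlow : (RR A n a ∩ Set.Ici c).ncard ≤ (n + (k + 1)).choose (k + 1) := by
        apply ihn
        intro m hm hma
        exact hA m hm (by omega)
      have hsub : RR A (n + 1) l ∩ Set.Ici c ⊆
          (RR A (n + 1) l ∩ Set.Ici (a + 1)) ∪ (RR A n a ∩ Set.Ici c) := by
        rintro i ⟨hi, hci⟩
        rcases Nat.lt_or_ge a i with h | h
        · exact Or.inl ⟨hi, h⟩
        · exact Or.inr ⟨RR_low h1 h2 haA hamin' n i hi hci h, hci⟩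
      have hf1 := (RR_finite h1 (n + 1) l).subset
        (Set.inter_subset_left (s := RR A (n + 1) l) (t := Set.Ici (a + 1)))
      have hf2 := (RR_finite h1 n a).subset
        (Set.inter_subset_left (s := RR A n a) (t := Set.Ici c))
      refine (Set.ncard_le_ncard hsub (hf1.union hf2)).trans ?_
      refine (Set.ncard_union_le _ _).trans ?_
      have hpas : (n + 1 + (k + 1)).choose (k + 1) =
          (n + 1 + k).choose k + (n + (k + 1)).choose (k + 1) := by
        have : n + 1 + (k + 1) = (n + 1 + k) + 1 := by omega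
        rw [this, Nat.choose_succ_succ]
        congr 1
        congr 1
        omega
      omega

end Pool.Agent.H89.Rad
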