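import Pool.Agent.H89.RadD
import Pool.Agent.H89.RadF
import Pool.Agent.H89.RadB

set_option autoImplicit false

open Classical

namespace Pool.Agent.H89.Rad

open Pool.Agent.H81.Balls

variable {V : Type*} {G : SimpleGraph V}

/-- The levels reached from `v` within `ρ` steps. -/
def Lv (G : SimpleGraph V) (lev : V → ℕ) (ρ : ℕ) (v : V) : Set ℕ :=
  {i | ∃ z, lev z = i ∧ RchS G {w | i ≤ lev w} ρ v z}

lemma lv_finite [Finite V] (lev : V → ℕ) (ρ : ℕ) (v : V) : (Lv G lev ρ v).Finite := by
  refine (Set.finite_range lev).subset ?_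
  rintro i ⟨z, hz, _⟩
  exact ⟨z, hz⟩

lemma lv_succ (lev : V → ℕ) (ρ : ℕ) (v : V) :
    Lv G lev (ρ + 1) v ⊆ Lv G lev ρ v ∪ ⋃ m ∈ Lv G lev ρ v,
      {i | i < m ∧ AdjS G {z | lev z = i} (comp G {w | m ≤ lev w} v)} := by
  rintro i ⟨z, hz, p, hp, hs⟩
  by_cases hlen : p.length ≤ ρ
  · exact Or.inl ⟨z, hz, p, hlen, hs⟩
  -- the last step
  have hne : ¬ p.Nil := by
    intro hnil
    have := SimpleGraph.Walk.length_eq_zero_iff.mpr hnil
    omega
  have hdl : (p.dropLast).length ≤ ρ := by
    have := SimpleGraph.Walk.length_dropLast_add_one hne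
    omega
  have hsub : ∀ w ∈ p.dropLast.support, w ∈ p.support := fun w hw =>
    by
      rw [← SimpleGraph.Walk.support_dropLast_concat hne]
      exact List.mem_append_left _ hw
  obtain ⟨z', hz', hmin⟩ := Finset.exists_min_image p.dropLast.support.toFinset lev ⟨v, by simp⟩
  rw [List.mem_toFinset] at hz'
  have hmin' : ∀ w ∈ p.dropLast.support, lev z' ≤ lev w := fun w hw =>
    hmin w (by rw [List.mem_toFinset]; exact hw)
  have hm : lev z' ∈ Lv G lev ρ v := by
    refine ⟨z', rfl, p.dropLast.takeUntil z' hz', ?_, ?_⟩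
    · exact (p.dropLast.length_takeUntil_le_length hz').trans hdl
    · intro w hw
      exact hmin' w (p.dropLast.support_takeUntil_subset_support hz' hw)
  have hiz : i ≤ lev z' := hs z' (hsub z' hz')
  rcases Nat.lt_or_ge i (lev z') with h | h
  · right
    refine Set.mem_biUnion hm ⟨h, z, hz, p.penultimate, ⟨ρ, p.dropLast, hdl, hmin'⟩, ?_⟩
    exact (p.adj_penultimate hne).symm
  · left
    have : i = lev z' := by omega
    rw [this]
    exact hm

/-- Earlier levels adjacent to the component of `v` in the levels at least `m`. -/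
def adjLev (G : SimpleGraph V) (lev : V → ℕ) (v : V) (m : ℕ) : Set ℕ :=
  {i | i < m ∧ AdjS G {z | lev z = i} (comp G {w | m ≤ lev w} v)}

lemma lv_subset (lev : V → ℕ) (ρ : ℕ) (v : V) :
    Lv G lev ρ v ⊆ RR (adjLev G lev v) ρ (lev v) := by
  induction ρ with
  | zero =>
    rintro i ⟨z, hz, p, hp, hs⟩
    have := SimpleGraph.Walk.eq_of_length_eq_zero (Nat.le_zero.mp hp)
    subst this
    exact hz.symm
  | succ ρ ih =>
    refine (lv_succ lev ρ v).trans ?_
    apply Set.union_subset_union ih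
    exact Set.biUnion_mono ih (fun m _ => subset_rfl)

lemma adjLev_card [Finite V] {t : ℕ} {lev : V → ℕ}
    (hB : PropB G t 0 (fun _ => ∅) ∅ Set.univ lev) (v : V) (m : ℕ) :
    (adjLev G lev v m).ncard ≤ t := by
  by_cases hne : (comp G {w | m ≤ lev w} v).Nonempty
  swap
  · rw [Set.not_nonempty_iff_eq_empty] at hne
    have : adjLev G lev v m = ∅ := by
      rw [Set.eq_empty_iff_forall_notMem]
      rintro i ⟨_, a, _, w, hw, _⟩
      rw [hne] at hw
      exact hw
    rw [this]
    simp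
  obtain ⟨z, hz, hzmin⟩ := Set.exists_min_image (comp G {w | m ≤ lev w} v) lev
    (Set.toFinite _) hne
  have hmz : m ≤ lev z := by
    obtain ⟨n, hn⟩ := hz
    exact hn.right
  have hvz : v ∈ comp G {w | m ≤ lev w} v := by
    obtain ⟨n, hn⟩ := hz
    exact mem_comp_self hn.left
  have heq : comp G {w | lev z ≤ lev w} z = comp G {w | m ≤ lev w} v := by
    apply Set.Subset.antisymm
    · rw [← comp_eq hz]
      apply comp_mono
      intro w hw
      exact hmz.trans hw
    · intro w hw
      have h1 : w ∈ comp G {w | m ≤ lev w} z := by rw [comp_eq hz]; exact hw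
      obtain ⟨n, hn⟩ := h1
      have h2 := hn.in_comp hz
      exact ⟨n, h2.mono (fun x hx => hzmin x hx) le_rfl⟩
  have h1 := hB z (Set.mem_univ _)
  refine le_trans (Set.ncard_le_ncard ?_ ?_) h1
  · rintro i ⟨hi, hadj⟩
    right
    refine ⟨Nat.zero_le _, by omega, ?_⟩
    have h2 : own G Set.univ lev z = comp G {w | m ≤ lev w} v := by
      unfold own
      rw [Set.univ_inter, heq]
    rw [h2]
    obtain ⟨a, ha, w, hw, haw⟩ := hadj
    exact ⟨a, ⟨Set.mem_univ _, ha⟩, w, hw, haw⟩
  · refine (Set.finite_lt_nat (lev z)).subset ?_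
    rintro i (hi | hi)
    · simp at hi
    · exact hi.2.1

lemma lv_card [Finite V] {t : ℕ} {lev : V → ℕ}
    (hB : PropB G t 0 (fun _ => ∅) ∅ Set.univ lev) (ρ : ℕ) (v : V) :
    (Lv G lev ρ v).ncard ≤ (ρ + t).choose t := by
  have h1 : ∀ m, ∀ i ∈ adjLev G lev v m, i < m := fun m i hi => hi.1
  have h2 : ∀ m, ∀ i ∈ adjLev G lev v m, ∀ j, i < j → j ≤ m → i ∈ adjLev G lev v j := by
    rintro m i ⟨_, a, ha, w, hw, haw⟩ j hij hjm
    exact ⟨hij, a, ha, w, comp_mono (fun x hx => le_trans hjm hx) v hw, haw⟩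
  have h3 := RR_count h1 h2 ρ t 0 (lev v) (fun m _ _ =>
    (Set.ncard_le_ncard Set.inter_subset_left
      ((Set.finite_lt_nat m).subset (h1 m))).trans (adjLev_card hB v m))
  refine (Set.ncard_le_ncard ?_ ((RR_finite h1 ρ (lev v)).subset Set.inter_subset_left)).trans h3
  intro i hi
  exact ⟨lv_subset lev ρ v hi, Nat.zero_le _⟩

/-- An order with small weakly reachable sets. -/
theorem exists_order_of_minorFree [Fintype V] {t : ℕ} (h1t : 1 ≤ t) (ht : KMinorFree (t + 2) G) :
    ∃ rk : V → ℕ, Function.Injective rk ∧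
      ∀ (ρ : ℕ) (v : V), (wreach G rk ρ v).ncard ≤ (ρ + t).choose t * (t * (2 * ρ + 1)) := by
  obtain ⟨lev, hA, hB⟩ := levels_univ h1t ht
  set N := Fintype.card V with hN
  let e : V ≃ Fin N := Fintype.equivFin V
  have key : ∀ a b : V, lev a * N + (e a : ℕ) ≤ lev b * N + (e b : ℕ) → lev a ≤ lev b := by
    intro a b hab
    by_contra hcon
    have h1 : lev b + 1 ≤ lev a := by omega
    have h2 : (lev b + 1) * N ≤ lev a * N := Nat.mul_le_mul_right _ h1
    have h3 := (e b).2
    have h4 : (lev b + 1) * N = lev b * N + N := by ring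
    omega
  refine ⟨fun v => lev v * N + (e v : ℕ), ?_, ?_⟩
  · intro a b hab
    have h1 : lev a = lev b := le_antisymm (key a b hab.le) (key b a hab.ge)
    simp only [h1] at hab
    have h2 : (e a : ℕ) = e b := by omega
    exact e.injective (Fin.ext h2)
  · intro ρ v
    have hsub : wreach G (fun v => lev v * N + (e v : ℕ)) ρ v ⊆
        ⋃ i ∈ (lv_finite (G := G) lev ρ v).toFinset,
          {z | z ∈ (Set.univ : Set V) ∧ lev z = i ∧
            RchS G (Set.univ ∩ {w | i ≤ lev w}) ρ v z} := by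
      rintro z ⟨p, hp, hs⟩
      have hr : RchS G {w | lev z ≤ lev w} ρ v z := by
        refine RchS.symm ⟨p, hp, ?_⟩
        intro w hw
        exact key z w (hs w hw)
      have h1 : lev z ∈ (lv_finite (G := G) lev ρ v).toFinset := by
        rw [Set.Finite.mem_toFinset]
        exact ⟨z, rfl, hr⟩
      refine Set.mem_biUnion h1 ⟨Set.mem_univ _, rfl, ?_⟩
      rw [Set.univ_inter]
      exact hr
    refine (Set.ncard_le_ncard hsub (Set.toFinite _)).trans ?_
    refine (Finset.set_ncard_biUnion_le _ _).trans ?_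
    refine (Finset.sum_le_card_nsmul _ _ (t * (2 * ρ + 1))
      (fun i _ => hA i ρ v (Set.mem_univ _))).trans ?_
    rw [smul_eq_mul]
    apply Nat.mul_le_mul_right
    have := lv_card hB ρ v
    rwa [Set.ncard_eq_toFinset_card _ (lv_finite (G := G) lev ρ v)] at this

end Pool.Agent.H89.Rad
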